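import Mathlib

/-!
# MP_453f59_nt: the zero index is prime as soon as `a(n) + n` is prime once
-/

namespace Pool.Agent.Results.MP_453f59_nt.PrimeSum

/-- `b N k = a_N(k + 1)`. -/
def b (N : ℕ) : ℕ → ℕ
  | 0 => N - 2
  | k + 1 => b N k - Nat.gcd (b N k) (k + 1)

/-- the sequence `a_N(n)`, `n ≥ 1`. -/
def a (N n : ℕ) : ℕ := b N (n - 1)

/-- the least index `n ≥ 1` with `a_N(n) = 0`. -/
noncomputable def f (N : ℕ) : ℕ := sInf {n | 1 ≤ n ∧ a N n = 0}

lemma b_anti (N k j : ℕ) (h : k ≤ j) : b N j ≤ b N k := by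
  induction j, h using Nat.le_induction with
  | base => exact le_rfl
  | succ j _ ih =>
    have : b N (j + 1) = b N j - Nat.gcd (b N j) (j + 1) := rfl
    omega

lemma descent {N P k : ℕ} (hP : P.Prime) (h : b N k + (k + 1) = P) :
    ∀ j, k ≤ j → j + 1 ≤ P → b N j + (j + 1) = P := by
  intro j hj
  induction j, hj using Nat.le_induction with
  | base => intro _; exact h
  | succ j hkj ih =>
    intro hjP
    have h1 := ih (by omega)
    have h2 : Nat.gcd (b N j) (j + 1) ∣ P := by
      rw [← h1]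
      exact Nat.dvd_add (Nat.gcd_dvd_left _ _) (Nat.gcd_dvd_right _ _)
    have h3 : Nat.gcd (b N j) (j + 1) ≤ j + 1 := Nat.gcd_le_right _ (by omega)
    have h4 : Nat.gcd (b N j) (j + 1) = 1 := by
      rcases (Nat.dvd_prime hP).1 h2 with h5 | h5
      · exact h5
      · omega
    have h5 : b N (j + 1) = b N j - Nat.gcd (b N j) (j + 1) := rfl
    rw [h5, h4]
    omega

lemma f_eq {N n : ℕ} (hn : 1 ≤ n) (h0 : a N n = 0) (hpos : ∀ m, 1 ≤ m → m < n → a N m ≠ 0) :
    f N = n := by
  unfold f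
  have hle : sInf {n | 1 ≤ n ∧ a N n = 0} ≤ n :=
    Nat.sInf_le (show n ∈ {n | 1 ≤ n ∧ a N n = 0} from ⟨hn, h0⟩)
  apply le_antisymm hle
  have hmem : sInf {n | 1 ≤ n ∧ a N n = 0} ∈ {n | 1 ≤ n ∧ a N n = 0} :=
    Nat.sInf_mem ⟨n, hn, h0⟩
  by_contra hlt
  push Not at hlt
  exact hpos _ hmem.1 hlt hmem.2

/-- if `a(n) + n` is prime, all earlier terms being nonzero, then it is the zero index. -/
lemma partA {N n : ℕ} (hn : 1 ≤ n) (hprev : ∀ m, 1 ≤ m → m < n → a N m ≠ 0)
    (hP : (a N n + n).Prime) : f N = a N n + n := by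
  obtain ⟨k, rfl⟩ : ∃ k, n = k + 1 := ⟨n - 1, by omega⟩
  set P := a N (k + 1) + (k + 1) with hPdef
  have h : b N k + (k + 1) = P := rfl
  have hd := descent hP h
  apply f_eq hP.one_lt.le
  · have h1 := hd (P - 1) (by omega) (by omega)
    show b N (P - 1) = 0
    omega
  · intro m hm hmP
    by_cases h2 : m < k + 1
    · exact hprev m hm h2
    · have h3 := hd (m - 1) (by omega) (by omega)
      show b N (m - 1) ≠ 0
      omega

lemma first {N q : ℕ} (hN : 4 ≤ N) (hq : q = (N - 1).minFac) :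
    ∀ k, k + 1 ≤ q → b N k + (k + 1) = N - 1 := by
  intro k
  induction k with
  | zero =>
    intro _
    show N - 2 + 1 = N - 1
    omega
  | succ k ih =>
    intro hk
    have h1 := ih (by omega)
    have h2 : Nat.gcd (b N k) (k + 1) ∣ N - 1 := by
      rw [← h1]
      exact Nat.dvd_add (Nat.gcd_dvd_left _ _) (Nat.gcd_dvd_right _ _)
    have h3 : Nat.gcd (b N k) (k + 1) ≤ k + 1 := Nat.gcd_le_right _ (by omega)
    have h4 : Nat.gcd (b N k) (k + 1) = 1 := by
      by_contra h5
      have h6 : 2 ≤ Nat.gcd (b N k) (k + 1) := by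
        have : 0 < Nat.gcd (b N k) (k + 1) := Nat.gcd_pos_of_pos_right _ (by omega)
        omega
      have h7 := Nat.minFac_le_of_dvd h6 h2
      omega
    have h5 : b N (k + 1) = b N k - Nat.gcd (b N k) (k + 1) := rfl
    have h6 : q ≤ N - 1 := by rw [hq]; exact Nat.minFac_le (by omega)
    rw [h5, h4]
    omega

theorem result :
    -- a prime value of `a(n) + n` before the first zero is the zero index
    (∀ N n : ℕ, 1 ≤ n → (∀ m, 1 ≤ m → m < n → a N m ≠ 0) → (a N n + n).Prime →
      f N = a N n + n ∧ (f N).Prime) ∧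
    -- `N - 1` prime
    (∀ N : ℕ, 4 ≤ N → (N - 1).Prime → f N = N - 1 ∧ (f N).Prime) ∧
    -- `N - q` prime, `q` the least prime factor of `N - 1`
    (∀ N : ℕ, 4 ≤ N → ¬ (N - 1).Prime → (N - (N - 1).minFac).Prime →
      f N = N - (N - 1).minFac ∧ (f N).Prime) := by
  have hA : ∀ N n : ℕ, 1 ≤ n → (∀ m, 1 ≤ m → m < n → a N m ≠ 0) → (a N n + n).Prime →
      f N = a N n + n ∧ (f N).Prime := by
    intro N n hn hprev hP
    have h := partA hn hprev hP
    exact ⟨h, by rw [h]; exact hP⟩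
  refine ⟨hA, ?_, ?_⟩
  · intro N hN hP
    have h1 : a N 1 + 1 = N - 1 := by
      show N - 2 + 1 = N - 1
      omega
    have h := hA N 1 le_rfl (by intro m h1 h2; omega) (by rw [h1]; exact hP)
    rwa [h1] at h
  · intro N hN hnp hP
    set q := (N - 1).minFac with hq
    have hqp : q.Prime := Nat.minFac_prime (by omega)
    have hq2 := hqp.two_le
    have hfirst := first hN hq
    obtain ⟨c, hc⟩ : q ∣ N - 1 := Nat.minFac_dvd _
    have hc2 : 2 ≤ c := by
      by_contra h
      have h3 : c = 0 ∨ c = 1 := by omega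
      rcases h3 with rfl | rfl
      · omega
      · rw [mul_one] at hc
        exact hnp (by rw [hc]; exact hqp)
    have hcq : q * 2 ≤ N - 1 := by
      rw [hc]
      exact Nat.mul_le_mul_left _ hc2
    have h1 := hfirst (q - 1) (by omega)
    have h2 : q - 1 + 1 = q := by omega
    rw [h2] at h1
    have h3 : b N q = b N (q - 1) - Nat.gcd (b N (q - 1)) q := by
      obtain ⟨r, hr⟩ : ∃ r, q = r + 1 := ⟨q - 1, by omega⟩
      rw [hr]
      rfl
    have h4 : Nat.gcd (b N (q - 1)) q = q := by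
      apply Nat.gcd_eq_right
      have : b N (q - 1) = N - 1 - q := by omega
      rw [this]
      exact Nat.dvd_sub ⟨c, hc⟩ dvd_rfl
    have h5 : a N (q + 1) + (q + 1) = N - q := by
      show b N q + (q + 1) = N - q
      rw [h3, h4]
      omega
    have h := hA N (q + 1) (by omega) (by
      intro m hm hmq
      have := hfirst (m - 1) (by omega)
      show b N (m - 1) ≠ 0
      omega) (by rw [h5]; exact hP)
    rwa [h5] at h

end Pool.Agent.Results.MP_453f59_nt.PrimeSum
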